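import Mathlib
import Pool.Agent.H15.NumSemExp

/-!
# Numerical semigroups whose exponent set consists of two incomparable elements

Main result: if `S` is a numerical semigroup and `E(S) = {a, b}` with `a ≠ b` incomparable for
`≤_S`, then `S` is a complete intersection.
-/

open PowerSeries

namespace Pool.Agent.Results.MP_a0aa5b_al.TwoIncomparable

/-- A submonoid of `(ℕ, +)` is a numerical semigroup if its complement is finite. -/
def IsNumericalSemigroup (S : AddSubmonoid ℕ) : Prop := ((S : Set ℕ)ᶜ).Finite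

/-- `a ≤_S b` means `b - a ∈ S`. -/
def SLe (S : AddSubmonoid ℕ) (a b : ℕ) : Prop := ∃ s ∈ S, a + s = b

/-- The minimal generators of `S`: the nonzero elements of `S` that are not a sum of two nonzero
elements of `S`. -/
def minGens (S : AddSubmonoid ℕ) : Set ℕ :=
  {x | x ∈ S ∧ x ≠ 0 ∧ ∀ y ∈ S, ∀ z ∈ S, y + z = x → y = 0 ∨ z = 0}

open Classical in
/-- `P_S(X) = (1 - X) ∑_{s ∈ S} X^s`, as a power series with integer coefficients. -/
noncomputable def semigroupPoly (S : AddSubmonoid ℕ) : ℤ⟦X⟧ :=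
  (1 - X) * PowerSeries.mk fun m => if m ∈ S then 1 else 0

/-- The unit `1 - X^(j+1)` of `ℤ⟦X⟧`; its inverse is the geometric series `∑_k X^(k (j+1))`. -/
noncomputable def oneSub (j : ℕ) : (ℤ⟦X⟧)ˣ where
  val := 1 - X ^ (j + 1)
  inv := PowerSeries.mk fun m => if j + 1 ∣ m then 1 else 0
  val_inv := by rw [mul_comm]; exact H15.NumSem.geo_mul (Nat.succ_pos j)
  inv_val := H15.NumSem.geo_mul (Nat.succ_pos j)

/-- `e` is the exponent sequence of `S`: `P_S(X) = ∏_{j ≥ 1} (1 - X^j)^(e j)` in `ℤ⟦X⟧`, i.e. for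
every `N` the coefficients of `X^0, …, X^N` of `P_S` and of `∏_{j=1}^N (1 - X^j)^(e j)` agree. -/
def IsExponentSequence (S : AddSubmonoid ℕ) (e : ℕ → ℤ) : Prop :=
  ∀ N m : ℕ, m ≤ N → coeff m (semigroupPoly S) =
    coeff m ((∏ j ∈ Finset.range N, oneSub j ^ e (j + 1) : (ℤ⟦X⟧)ˣ) : ℤ⟦X⟧)

open H15.NumSem in
theorem oneSub_eq (j : ℕ) : oneSub j = u j := by
  ext1; rfl

open H15.NumSem in
theorem semigroupPoly_eq (S : AddSubmonoid ℕ) : semigroupPoly S = (1 - X) * hser S := rfl

open H15.NumSem in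
theorem coeff_zero_semigroupPoly (S : AddSubmonoid ℕ) : coeff 0 (semigroupPoly S) = 1 := by
  rw [semigroupPoly_eq, sub_mul, one_mul, map_sub, coeff_hser,
    if_pos (show 0 ∈ (S : Set ℕ) from S.zero_mem)]
  simp

open H15.NumSem in
theorem partial_lead (e : ℕ → ℤ) (N : ℕ) :
    coeff 0 ((∏ j ∈ Finset.range N, oneSub j ^ e (j + 1) : (ℤ⟦X⟧)ˣ) : ℤ⟦X⟧) = 1 := by
  induction N with
  | zero => simp
  | succ N ih =>
    rw [Finset.prod_range_succ, Units.val_mul, mul_comm, oneSub_eq,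
      coeff_mul_lead (Nat.succ_pos N) (lead_u_zpow N _) _ (Nat.succ_pos N), ih]

open H15.NumSem in
/-- Every submonoid of `ℕ` has an exponent sequence. -/
theorem exists_exponentSequence (S : AddSubmonoid ℕ) : ∃ e : ℕ → ℤ, IsExponentSequence S e := by
  set f := semigroupPoly S with hf
  -- recursive construction of the partial products
  let U : ℕ → (ℤ⟦X⟧)ˣ := fun N => Nat.rec 1
    (fun N V => V * u N ^ (-(coeff (N + 1) (f * ((V⁻¹ : (ℤ⟦X⟧)ˣ) : ℤ⟦X⟧))))) N
  let k : ℕ → ℤ := fun N => -(coeff (N + 1) (f * (((U N)⁻¹ : (ℤ⟦X⟧)ˣ) : ℤ⟦X⟧)))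
  have hU0 : U 0 = 1 := rfl
  have hUs : ∀ N, U (N + 1) = U N * u N ^ k N := fun N => rfl
  let e : ℕ → ℤ := fun j => k (j - 1)
  have hprod : ∀ N, (∏ j ∈ Finset.range N, oneSub j ^ e (j + 1) : (ℤ⟦X⟧)ˣ) = U N := by
    intro N
    induction N with
    | zero => simp [hU0]
    | succ N ih =>
      rw [Finset.prod_range_succ, ih, hUs, oneSub_eq]
      simp [e]
  have hlead : ∀ N, Lead (N + 1) (k N) (f * (((U N)⁻¹ : (ℤ⟦X⟧)ˣ) : ℤ⟦X⟧)) := by
    intro N
    induction N with
    | zero =>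
      refine ⟨?_, fun m h0 hm => by omega, ?_⟩
      · rw [hU0, inv_one, Units.val_one, mul_one]; exact coeff_zero_semigroupPoly S
      · simp [k]
    | succ N ih =>
      have h1 : f * (((U (N + 1))⁻¹ : (ℤ⟦X⟧)ˣ) : ℤ⟦X⟧) =
          (f * (((U N)⁻¹ : (ℤ⟦X⟧)ˣ) : ℤ⟦X⟧)) * ((u N ^ (-k N) : (ℤ⟦X⟧)ˣ) : ℤ⟦X⟧) := by
        rw [hUs, mul_inv, Units.val_mul, ← zpow_neg, mul_assoc]
      have h2 : Lead (N + 1) 0 (f * (((U (N + 1))⁻¹ : (ℤ⟦X⟧)ˣ) : ℤ⟦X⟧)) := by
        rw [h1]
        have := ih.mul (Nat.succ_pos N) (lead_u_zpow N (-k N))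
        rwa [add_neg_cancel] at this
      refine ⟨h2.1, fun m h0 hm => ?_, ?_⟩
      · rcases Nat.lt_or_ge m (N + 1) with h3 | h3
        · exact h2.2.1 m h0 h3
        · have : m = N + 1 := by omega
          rw [this, h2.2.2, neg_zero]
      · simp [k]
  refine ⟨e, fun N m hm => ?_⟩
  rw [hprod N]
  have h1 : f = (f * (((U N)⁻¹ : (ℤ⟦X⟧)ˣ) : ℤ⟦X⟧)) * Units.val (U N) := by
    rw [mul_assoc, Units.inv_mul, mul_one]
  rw [← hf]
  calc coeff m f = coeff m ((f * (((U N)⁻¹ : (ℤ⟦X⟧)ˣ) : ℤ⟦X⟧)) * Units.val (U N)) := by rw [← h1]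
    _ = coeff m (Units.val (U N)) := coeff_mul_lead (Nat.succ_pos N) (hlead N) _ (by omega)

open H15.NumSem in
/-- The exponent sequence is unique (on positive indices). -/
theorem exponentSequence_unique {S : AddSubmonoid ℕ} {e e' : ℕ → ℤ} (h : IsExponentSequence S e)
    (h' : IsExponentSequence S e') : ∀ j, 1 ≤ j → e j = e' j := by
  intro j
  induction j using Nat.strong_induction_on with
  | _ j ih =>
  intro hj
  obtain ⟨N, rfl⟩ : ∃ N, j = N + 1 := ⟨j - 1, by omega⟩
  have key : ∀ e : ℕ → ℤ, IsExponentSequence S e → coeff (N + 1) (semigroupPoly S) =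
      coeff (N + 1) ((∏ j ∈ Finset.range N, oneSub j ^ e (j + 1) : (ℤ⟦X⟧)ˣ) : ℤ⟦X⟧) - e (N + 1) := by
    intro e he
    rw [he (N + 1) (N + 1) le_rfl, Finset.prod_range_succ, Units.val_mul, mul_comm]
    conv_lhs => rw [oneSub_eq N]
    rw [coeff_mul_lead_self (Nat.succ_pos N) (lead_u_zpow N _), partial_lead, mul_one]
  have h1 := key e h
  have h2 := key e' h'
  have h3 : (∏ j ∈ Finset.range N, oneSub j ^ e (j + 1) : (ℤ⟦X⟧)ˣ) =
      ∏ j ∈ Finset.range N, oneSub j ^ e' (j + 1) := by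
    apply Finset.prod_congr rfl
    intro i hi
    rw [Finset.mem_range] at hi
    rw [ih (i + 1) (by omega) (by omega)]
  rw [h3] at h1
  linarith

/-- The exponent sequence `(e_j)` of `S`. -/
noncomputable def exponent (S : AddSubmonoid ℕ) : ℕ → ℤ := Classical.choose (exists_exponentSequence S)

theorem exponent_spec (S : AddSubmonoid ℕ) : IsExponentSequence S (exponent S) :=
  Classical.choose_spec (exists_exponentSequence S)

/-- `E(S) = {d ≥ 2 : e_d ≠ 0, d is not a minimal generator of S}`. -/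
def exponentSet (S : AddSubmonoid ℕ) : Set ℕ := {d | 2 ≤ d ∧ exponent S d ≠ 0 ∧ d ∉ minGens S}

/-- The factorization map `φ : ℕ^e → S`, `φ(a) = ∑ a_i n_i`, where the `n_i` are the minimal
generators of `S`. -/
noncomputable def factMap (S : AddSubmonoid ℕ) : (minGens S →₀ ℕ) →+ ℕ :=
  (Finsupp.linearCombination ℕ fun g : minGens S => (g : ℕ)).toAddMonoidHom

/-- A presentation of `S`: a set of pairs generating the congruence `ker φ`. -/
def IsPresentation (S : AddSubmonoid ℕ) (ρ : Set ((minGens S →₀ ℕ) × (minGens S →₀ ℕ))) : Prop :=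
  addConGen (fun x y => (x, y) ∈ ρ) = AddCon.ker (factMap S)

/-- A minimal presentation: no proper subset is a presentation. -/
def IsMinimalPresentation (S : AddSubmonoid ℕ)
    (ρ : Set ((minGens S →₀ ℕ) × (minGens S →₀ ℕ))) : Prop :=
  IsPresentation S ρ ∧ ∀ ρ', ρ' ⊂ ρ → ¬ IsPresentation S ρ'

/-- `S` is a complete intersection: it has finitely many minimal generators and a minimal
presentation whose cardinality is the number of minimal generators minus one. -/
def IsCompleteIntersection (S : AddSubmonoid ℕ) : Prop :=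
  (minGens S).Finite ∧ ∃ ρ, IsMinimalPresentation S ρ ∧ ρ.Finite ∧ ρ.ncard + 1 = (minGens S).ncard

/-! ### Minimal generators -/

section gens

open H15.NumSem

variable {S : AddSubmonoid ℕ}

theorem minGens_finite (hS : IsNumericalSemigroup S) : (minGens S).Finite := by
  obtain ⟨c, hc⟩ := hS.bddAbove
  have hmem : ∀ m, c + 1 ≤ m → m ∈ S := by
    intro m hm
    by_contra h
    have := hc (show m ∈ (S : Set ℕ)ᶜ from h)
    omega
  apply (Set.finite_lt_nat (2 * (c + 1))).subset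
  rintro x ⟨hx, hx0, hat⟩
  by_contra hcon
  simp only [Set.mem_ofPred_eq, not_lt] at hcon
  rcases hat (c + 1) (hmem _ le_rfl) (x - (c + 1)) (hmem _ (by omega)) (by omega) with h | h
  · omega
  · omega

theorem fac_mem (z : minGens S →₀ ℕ) : factMap S z ∈ S := by
  induction z using Finsupp.induction_linear with
  | zero => rw [map_zero]; exact S.zero_mem
  | add f g hf hg => rw [map_add]; exact S.add_mem hf hg
  | single i k =>
    have h1 : factMap S (Finsupp.single i k) = k * (i : ℕ) := by simp [factMap]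
    rw [h1]
    simpa using S.nsmul_mem i.2.1 k

theorem factMap_eq : factMap S = fac (fun g : minGens S => (g : ℕ)) := rfl

/-- Every element of `S` is a sum of minimal generators. -/
theorem gen_minGens : gen (fun g : minGens S => (g : ℕ)) = S := by
  ext m
  constructor
  · intro hm
    obtain ⟨c, rfl⟩ := mem_gen.mp hm
    exact fac_mem c
  · induction m using Nat.strong_induction_on with
    | _ m ih =>
    intro hm
    by_cases h0 : m = 0
    · rw [h0]; exact (gen _).zero_mem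
    by_cases hat : ∀ y ∈ S, ∀ z ∈ S, y + z = m → y = 0 ∨ z = 0
    · exact mem_gen_self (fun g : minGens S => (g : ℕ)) ⟨m, hm, h0, hat⟩
    · push Not at hat
      obtain ⟨y, hy, z, hz, hyz, hy0, hz0⟩ := hat
      rw [← hyz]
      exact (gen _).add_mem (ih y (by omega) hy) (ih z (by omega) hz)

theorem minGens_min (i : minGens S) (c : minGens S →₀ ℕ)
    (h : fac (fun g : minGens S => (g : ℕ)) c = i) : c = Finsupp.single i 1 := by
  classical
  have hc0 : c ≠ 0 := by
    rintro rfl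
    rw [map_zero] at h
    exact i.2.2.1 h.symm
  obtain ⟨k, hk⟩ := Finsupp.ne_iff.mp hc0
  have hk' : 1 ≤ c k := Nat.one_le_iff_ne_zero.mpr (by simpa using hk)
  have hdec : c = Finsupp.single k 1 + (c - Finsupp.single k 1) := by
    ext j
    by_cases hj : j = k
    · subst hj; simp; omega
    · simp [Finsupp.single_apply, Ne.symm hj]
  have h2 : (k : ℕ) + fac (fun g : minGens S => (g : ℕ)) (c - Finsupp.single k 1) = i := by
    rw [← h]
    conv_rhs => rw [hdec]
    rw [map_add, fac_single, one_mul]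
  rcases i.2.2.2 k k.2.1 _ (fac_mem (c - Finsupp.single k 1)) h2 with h3 | h3
  · exact absurd h3 k.2.2.1
  · have h4 : c - Finsupp.single k 1 = 0 := by
      by_contra hne
      obtain ⟨l, hl⟩ := Finsupp.ne_iff.mp hne
      have hl' : 1 ≤ (c - Finsupp.single k 1 : minGens S →₀ ℕ) l :=
        Nat.one_le_iff_ne_zero.mpr (by simpa using hl)
      have h5 : factMap S (c - Finsupp.single k 1) = 0 := h3
      rw [factMap_eq, fac_eq_add_erase _ l] at h5
      have h6 : 0 < (l : ℕ) := Nat.pos_of_ne_zero l.2.2.1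
      have h7 : 0 < (c - Finsupp.single k 1 : minGens S →₀ ℕ) l * (l : ℕ) := Nat.mul_pos hl' h6
      omega
    have h5 : factMap S (c - Finsupp.single k 1) = 0 := h3
    rw [factMap_eq] at h5
    rw [h5, add_zero] at h2
    have h6 : k = i := Subtype.ext h2
    rw [hdec, h4, add_zero, h6]

/-- Sanity check: any set generating `S` contains the minimal generators. -/
theorem minGens_subset_of_closure {A : Set ℕ} (hA : AddSubmonoid.closure A = S) : minGens S ⊆ A := by
  have key : ∀ m ∈ AddSubmonoid.closure A, m ∈ minGens S → m ∈ A := by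
    intro m hm
    induction hm using AddSubmonoid.closure_induction with
    | mem x hx => exact fun _ => hx
    | zero => exact fun h => absurd rfl h.2.1
    | add x y hx hy ihx ihy =>
      intro h
      rw [hA] at hx hy
      rcases h.2.2 x hx y hy rfl with h0 | h0
      · subst h0; rw [zero_add] at h ⊢; exact ihy h
      · subst h0; rw [add_zero] at h ⊢; exact ihx h
  intro m hm
  exact key m (hA ▸ hm.1) hm

end gens

/-! ### Values of the exponent sequence -/

section exps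

open H15.NumSem

variable {S : AddSubmonoid ℕ}

/-- Products over index sets contained in `S`. -/
theorem prod_supp (e : ℕ → ℤ) (s : Finset ℕ) (hs : ∀ i ∈ s, i + 1 ∈ S ∨ e (i + 1) = 0) :
    SuppIn S ((∏ i ∈ s, oneSub i ^ e (i + 1) : (ℤ⟦X⟧)ˣ) : ℤ⟦X⟧) ∧
    coeff 0 ((∏ i ∈ s, oneSub i ^ e (i + 1) : (ℤ⟦X⟧)ˣ) : ℤ⟦X⟧) = 1 := by
  induction s using Finset.induction_on with
  | empty => exact ⟨by simpa using SuppIn.one, by simp⟩
  | insert a s ha ih =>
    obtain ⟨h1, h2⟩ := ih (fun i hi => hs i (Finset.mem_insert_of_mem hi))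
    rw [Finset.prod_insert ha, Units.val_mul]
    refine ⟨?_, ?_⟩
    · apply SuppIn.mul _ h1
      rcases hs a (Finset.mem_insert_self a s) with h3 | h3
      · rw [oneSub_eq]; exact suppIn_u_zpow h3 _
      · rw [h3]; simpa using SuppIn.one
    · rw [oneSub_eq, coeff_mul_lead (Nat.succ_pos a) (lead_u_zpow a _) _ (Nat.succ_pos a), h2]

theorem coeff_factor_atom {j : ℕ} (hj : j ∈ minGens S) {i : ℕ} (hi : i + 1 ∈ S) (hne : i + 1 ≠ j)
    (k : ℤ) : coeff j ((oneSub i ^ k : (ℤ⟦X⟧)ˣ) : ℤ⟦X⟧) = 0 := by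
  rw [oneSub_eq]
  apply suppIn_u_zpow (T := AddSubmonoid.multiples (i + 1)) (AddSubmonoid.mem_multiples (i + 1)) k
  intro hmem
  obtain ⟨t, ht⟩ := (AddSubmonoid.mem_multiples_iff _ _).mp (show j ∈ AddSubmonoid.multiples (i + 1) from hmem)
  rw [smul_eq_mul] at ht
  have ht0 : t ≠ 0 := by rintro rfl; exact hj.2.1 (by simpa using ht.symm)
  have ht1 : t ≠ 1 := by rintro rfl; exact hne (by simpa using ht)
  obtain ⟨r, rfl⟩ : ∃ r, t = r + 2 := ⟨t - 2, by omega⟩
  have h2 : (r + 1) * (i + 1) ∈ S := by simpa using S.nsmul_mem hi (r + 1)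
  rcases hj.2.2 (i + 1) hi ((r + 1) * (i + 1)) h2 (by rw [← ht]; ring) with h3 | h3
  · omega
  · rcases Nat.mul_eq_zero.mp h3 with h4 | h4 <;> omega

theorem prod_atom (e : ℕ → ℤ) {j : ℕ} (hj : j ∈ minGens S) (s : Finset ℕ)
    (hs : ∀ i ∈ s, i + 1 ∈ S ∨ e (i + 1) = 0) (hsj : ∀ i ∈ s, i + 1 ≠ j) :
    coeff j ((∏ i ∈ s, oneSub i ^ e (i + 1) : (ℤ⟦X⟧)ˣ) : ℤ⟦X⟧) = 0 := by
  induction s using Finset.induction_on with
  | empty => simp [coeff_one, hj.2.1]
  | insert a s ha ih =>
    have hs' : ∀ i ∈ s, i + 1 ∈ S ∨ e (i + 1) = 0 := fun i hi => hs i (Finset.mem_insert_of_mem hi)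
    have h1 := ih hs' (fun i hi => hsj i (Finset.mem_insert_of_mem hi))
    obtain ⟨h2, h3⟩ := prod_supp e s hs'
    rw [Finset.prod_insert ha, Units.val_mul]
    rcases hs a (Finset.mem_insert_self a s) with h4 | h4
    · have h5 : SuppIn S ((oneSub a ^ e (a + 1) : (ℤ⟦X⟧)ˣ) : ℤ⟦X⟧) := by
        rw [oneSub_eq]; exact suppIn_u_zpow h4 _
      rw [coeff_mul_atom h5 h2 hj.2.1 hj.2.2, h1,
        coeff_factor_atom hj h4 (hsj a (Finset.mem_insert_self a s))]
      ring
    · rw [h4]; simpa using h1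

/-- `hser S` agrees with the product over indices `≥ 2` up to order `N`. -/
theorem hser_eq_upto {e : ℕ → ℤ} (he : IsExponentSequence S e) (he1 : e 1 = 1) {N m : ℕ}
    (hN : 1 ≤ N) (hm : m ≤ N) : coeff m (hser S) =
      coeff m ((∏ j ∈ Finset.Ico 1 N, oneSub j ^ e (j + 1) : (ℤ⟦X⟧)ˣ) : ℤ⟦X⟧) := by
  set W := (∏ j ∈ Finset.Ico 1 N, oneSub j ^ e (j + 1) : (ℤ⟦X⟧)ˣ) with hW
  have h1 : (∏ j ∈ Finset.range N, oneSub j ^ e (j + 1) : (ℤ⟦X⟧)ˣ) = oneSub 0 * W := by
    rw [Finset.range_eq_Ico, Finset.prod_eq_prod_Ico_succ_bot (by omega : 0 < N)]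
    simp [he1, hW]
  have h2 : ∀ k ≤ N, coeff k (semigroupPoly S) = coeff k ((oneSub 0 : ℤ⟦X⟧) * (W : ℤ⟦X⟧)) := by
    intro k hk
    rw [he N k hk, h1, Units.val_mul]
  have h3 : semigroupPoly S = (oneSub 0 : ℤ⟦X⟧) * hser S := by
    rw [semigroupPoly_eq]
    simp [oneSub]
  -- multiply by the inverse
  have h4 : ∀ f : ℤ⟦X⟧, f = (((oneSub 0)⁻¹ : (ℤ⟦X⟧)ˣ) : ℤ⟦X⟧) * ((oneSub 0 : ℤ⟦X⟧) * f) := by
    intro f
    rw [← mul_assoc, Units.inv_mul, one_mul]
  rw [h4 (hser S), h4 (W : ℤ⟦X⟧), ← h3, coeff_mul, coeff_mul]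
  apply Finset.sum_congr rfl
  intro q hq
  rw [Finset.HasAntidiagonal.mem_antidiagonal] at hq
  rw [h2 q.2 (by omega)]

theorem exponent_one {e : ℕ → ℤ} (he : IsExponentSequence S e) (h1 : 1 ∉ S) : e 1 = 1 := by
  have h2 := he 1 1 le_rfl
  rw [Finset.prod_range_one, oneSub_eq, (lead_u_zpow 0 (e (0 + 1))).2.2, semigroupPoly_eq, sub_mul,
    one_mul, map_sub, coeff_hser, if_neg (show 1 ∉ (S : Set ℕ) from h1)] at h2
  have h3 : coeff 1 (X * hser (S : Set ℕ)) = 1 := by
    rw [show (1 : ℕ) = 0 + 1 from rfl, coeff_succ_X_mul, coeff_hser,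
      if_pos (show 0 ∈ (S : Set ℕ) from S.zero_mem)]
  rw [h3] at h2
  have h4 : e (0 + 1) = e 1 := rfl
  rw [h4] at h2
  linarith

theorem exponent_values {e : ℕ → ℤ} (he : IsExponentSequence S e) (h1 : 1 ∉ S) (j : ℕ) (hj : 2 ≤ j) :
    (j ∉ S → e j = 0) ∧ (j ∈ minGens S → e j = -1) := by
  have he1 := exponent_one he h1
  induction j using Nat.strong_induction_on with
  | _ j ih =>
  obtain ⟨N, rfl⟩ : ∃ N, j = N + 1 := ⟨j - 1, by omega⟩
  have h2 := hser_eq_upto he he1 (N := N + 1) (m := N + 1) (by omega) le_rfl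
  rw [Finset.prod_Ico_succ_top (by omega : 1 ≤ N), Units.val_mul, mul_comm] at h2
  have hs : ∀ i ∈ Finset.Ico 1 N, i + 1 ∈ S ∨ e (i + 1) = 0 := by
    intro i hi
    rw [Finset.mem_Ico] at hi
    by_cases hiS : i + 1 ∈ S
    · left; exact hiS
    · right; exact (ih (i + 1) (by omega) (by omega)).1 hiS
  obtain ⟨h3, h4⟩ := prod_supp e (Finset.Ico 1 N) hs
  set W := (∏ i ∈ Finset.Ico 1 N, oneSub i ^ e (i + 1) : (ℤ⟦X⟧)ˣ) with hW
  rw [oneSub_eq N, coeff_mul_lead_self (Nat.succ_pos N) (lead_u_zpow N _), h4, mul_one,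
    coeff_hser] at h2
  constructor
  · intro hjS
    rw [if_neg (show N + 1 ∉ (S : Set ℕ) from hjS), h3 (N + 1) hjS] at h2
    linarith
  · intro hjm
    have h5 : coeff (N + 1) (W : ℤ⟦X⟧) = 0 := by
      apply prod_atom e hjm (Finset.Ico 1 N) hs
      intro i hi
      rw [Finset.mem_Ico] at hi
      omega
    rw [if_pos (show N + 1 ∈ (S : Set ℕ) from hjm.1), h5] at h2
    linarith

/-- Positivity of an exponent. -/
theorem exponent_nonneg {a b : ℕ} (ha : a + 1 ∈ S) (hb : b + 1 ∈ S)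
    (hab : ¬ SLe S (a + 1) (b + 1)) {α β : ℤ} (hS : IsNumericalSemigroup S) [Fintype (minGens S)]
    (h : hser S = ((oneSub b ^ β : (ℤ⟦X⟧)ˣ) : ℤ⟦X⟧) * (((oneSub a ^ α : (ℤ⟦X⟧)ˣ) : ℤ⟦X⟧) *
      ∏ g : minGens S, geo (g : ℕ))) : 0 ≤ β := by
  classical
  set G := ∏ g : minGens S, geo (g : ℕ) with hG
  have hGS : SuppIn S G := suppIn_prod_geo (fun g : minGens S => (g : ℕ)) _ fun i _ => i.2.1
  have hG0 : ∀ m, 0 ≤ coeff m G := nonneg_prod_geo (fun g : minGens S => (g : ℕ)) _
  have hG1 : 1 ≤ coeff (b + 1) G := by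
    obtain ⟨c, hc⟩ := mem_gen.mp (show b + 1 ∈ gen (fun g : minGens S => (g : ℕ)) by
      rw [gen_minGens]; exact hb)
    have h1 := one_le_prod_geo (fun g : minGens S => (g : ℕ)) Finset.univ c
    have h2 : ∑ g : minGens S, c g * (g : ℕ) = b + 1 := by
      rw [← hc, fac_apply, Finsupp.sum_fintype _ _ (by simp)]
    rw [h2] at h1
    exact h1
  have hG00 : coeff 0 G = 1 := by
    rw [hG, coeff_zero_eq_constantCoeff_apply, map_prod]
    apply Finset.prod_eq_one
    intro g _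
    rw [← coeff_zero_eq_constantCoeff_apply]
    simp [geo]
  have h1 := congrArg (fun q => coeff (b + 1) q) h
  beta_reduce at h1
  rw [oneSub_eq b, coeff_mul_lead_self (Nat.succ_pos b) (lead_u_zpow b β), coeff_hser,
    if_pos (show b + 1 ∈ (S : Set ℕ) from hb)] at h1
  have h2 : coeff 0 (((oneSub a ^ α : (ℤ⟦X⟧)ˣ) : ℤ⟦X⟧) * G) = 1 := by
    rw [oneSub_eq a, coeff_mul_lead (Nat.succ_pos a) (lead_u_zpow a α) _ (Nat.succ_pos a), hG00]
  have h3 : coeff (b + 1) (((oneSub a ^ α : (ℤ⟦X⟧)ˣ) : ℤ⟦X⟧) * G) = coeff (b + 1) G := by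
    rw [coeff_mul, Finset.sum_eq_single (0, b + 1)]
    · rw [oneSub_eq a, (lead_u_zpow a α).1, one_mul]
    · intro q hq hne
      rw [Finset.HasAntidiagonal.mem_antidiagonal] at hq
      by_cases h4 : q.1 ∈ AddSubmonoid.multiples (a + 1)
      · obtain ⟨t, ht⟩ := (AddSubmonoid.mem_multiples_iff _ _).mp h4
        rw [smul_eq_mul] at ht
        have ht0 : t ≠ 0 := by
          rintro rfl
          apply hne
          have h5 : q.1 = 0 := by rw [← ht]; simp
          ext
          · exact h5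
          · simp; omega
        obtain ⟨r, rfl⟩ := Nat.exists_eq_succ_of_ne_zero ht0
        by_cases h5 : q.2 ∈ (S : Set ℕ)
        · exfalso
          apply hab
          refine ⟨r * (a + 1) + q.2, S.add_mem ?_ h5, ?_⟩
          · simpa using S.nsmul_mem ha r
          · rw [← hq, ← ht, Nat.succ_eq_add_one]; ring
        · rw [hGS _ h5, mul_zero]
      · rw [oneSub_eq a, suppIn_u_zpow (T := AddSubmonoid.multiples (a + 1))
          (AddSubmonoid.mem_multiples (a + 1)) α q.1 h4, zero_mul]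
    · intro h; simp at h
  rw [h2, h3] at h1
  linarith

/-- The finite product formula. -/
theorem hser_formula {e : ℕ → ℤ} (he : IsExponentSequence S e) (h1 : 1 ∉ S)
    (hS : IsNumericalSemigroup S) [Fintype (minGens S)] {a b : ℕ} (hab : a ≠ b)
    (hE : {d | 2 ≤ d ∧ e d ≠ 0 ∧ d ∉ minGens S} = {a + 1, b + 1}) :
    hser S = ((oneSub b ^ e (b + 1) : (ℤ⟦X⟧)ˣ) : ℤ⟦X⟧) *
      (((oneSub a ^ e (a + 1) : (ℤ⟦X⟧)ˣ) : ℤ⟦X⟧) * ∏ g : minGens S, geo (g : ℕ)) := by
  classical
  have he1 := exponent_one he h1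
  have hval := exponent_values he h1
  have haE : a + 1 ∈ {d | 2 ≤ d ∧ e d ≠ 0 ∧ d ∉ minGens S} := by rw [hE]; simp
  have hbE : b + 1 ∈ {d | 2 ≤ d ∧ e d ≠ 0 ∧ d ∉ minGens S} := by rw [hE]; simp
  have hg1 : ∀ g ∈ minGens S, 2 ≤ g := by
    intro g hg
    have h2 := hg.2.1
    have h3 : g ≠ 1 := fun h => h1 (h ▸ hg.1)
    omega
  -- set of indices of minimal generators
  set G : Finset ℕ := Finset.univ.image (fun g : minGens S => (g : ℕ) - 1) with hG
  have hGmem : ∀ i, i ∈ G ↔ i + 1 ∈ minGens S := by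
    intro i
    rw [hG, Finset.mem_image]
    constructor
    · rintro ⟨g, -, rfl⟩
      have := hg1 g g.2
      have h2 : (g : ℕ) - 1 + 1 = g := by omega
      rw [h2]; exact g.2
    · intro h
      exact ⟨⟨i + 1, h⟩, Finset.mem_univ _, by simp⟩
  have haG : a ∉ G := fun h => haE.2.2 ((hGmem a).mp h)
  have hbG : b ∉ G := fun h => hbE.2.2 ((hGmem b).mp h)
  have key : ∀ N, (∀ i ∈ insert a (insert b G), i < N) →
      (∏ j ∈ Finset.Ico 1 N, oneSub j ^ e (j + 1) : (ℤ⟦X⟧)ˣ) =
      oneSub b ^ e (b + 1) * (oneSub a ^ e (a + 1) * ∏ i ∈ G, (oneSub i)⁻¹) := by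
    intro N hN
    have h2 : insert a (insert b G) ⊆ Finset.Ico 1 N := by
      intro i hi
      rw [Finset.mem_Ico]
      refine ⟨?_, hN i hi⟩
      simp only [Finset.mem_insert] at hi
      rcases hi with rfl | rfl | hi
      · have := haE.1; omega
      · have := hbE.1; omega
      · have := hg1 _ ((hGmem i).mp hi); omega
    rw [← Finset.prod_subset h2]
    · rw [Finset.prod_insert (by simp [hab, haG]), Finset.prod_insert hbG]
      have h3 : ∏ i ∈ G, oneSub i ^ e (i + 1) = ∏ i ∈ G, (oneSub i)⁻¹ := by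
        apply Finset.prod_congr rfl
        intro i hi
        have h4 := (hGmem i).mp hi
        rw [(hval (i + 1) (hg1 _ h4)).2 h4, zpow_neg_one]
      rw [h3]
      exact mul_left_comm _ _ _
    · intro i hi hni
      rw [Finset.mem_Ico] at hi
      simp only [Finset.mem_insert, not_or] at hni
      have h3 : i + 1 ∉ {d | 2 ≤ d ∧ e d ≠ 0 ∧ d ∉ minGens S} := by
        rw [hE]
        simp only [Set.mem_insert_iff, Set.mem_singleton_iff, not_or]
        omega
      have h4 : e (i + 1) = 0 := by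
        by_contra hne
        exact h3 ⟨by omega, hne, fun h => hni.2.2 ((hGmem i).mpr h)⟩
      rw [h4, zpow_zero]
  have hgeo : ((∏ i ∈ G, (oneSub i)⁻¹ : (ℤ⟦X⟧)ˣ) : ℤ⟦X⟧) = ∏ g : minGens S, geo (g : ℕ) := by
    rw [hG, Finset.prod_image, Units.coe_prod]
    · apply Finset.prod_congr rfl
      intro g _
      have := hg1 g g.2
      have h2 : (g : ℕ) - 1 + 1 = g := by omega
      change geo ((g : ℕ) - 1 + 1) = geo (g : ℕ)
      rw [h2]
    · intro g _ g' _ h
      have h2 := hg1 g g.2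
      have h3 := hg1 g' g'.2
      ext
      have h4 : (g : ℕ) - 1 = (g' : ℕ) - 1 := h
      omega
  ext m
  set N := (insert a (insert b G)).sup id + m + 1 with hN
  have h2 : ∀ i ∈ insert a (insert b G), i < N := by
    intro i hi
    have : i ≤ (insert a (insert b G)).sup id := Finset.le_sup (f := id) hi
    omega
  rw [hser_eq_upto he he1 (N := N) (m := m) (by omega) (by omega), key N h2, Units.val_mul,
    Units.val_mul, hgeo]

end exps

/-! ### The case `S = ℕ` -/

open H15.NumSem in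
theorem exponent_top {S : AddSubmonoid ℕ} (h1 : 1 ∈ S) (j : ℕ) (hj : 1 ≤ j) : exponent S j = 0 := by
  classical
  have htop : ∀ m, m ∈ (S : Set ℕ) := fun m => by
    have := S.nsmul_mem h1 m
    simpa using this
  have hP : semigroupPoly S = 1 := by
    rw [semigroupPoly_eq]
    have : hser S = geo 1 := by
      ext m
      rw [coeff_hser, if_pos (htop m)]
      simp [geo]
    rw [this, mul_comm]
    have h2 := geo_mul (a := 1) one_pos
    rwa [pow_one] at h2
  have h0 : IsExponentSequence S (fun _ => 0) := by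
    intro N m _
    rw [hP]
    simp
  exact exponentSequence_unique (exponent_spec S) h0 j hj

/-! ### The main theorem -/

open H15.NumSem in
theorem isCompleteIntersection_of_hasPres {S : AddSubmonoid ℕ} [Fintype (minGens S)]
    (h : HasPres (fun g : minGens S => (g : ℕ)) (Fintype.card (minGens S) - 1))
    (hne : 0 < Fintype.card (minGens S)) : IsCompleteIntersection S := by
  classical
  obtain ⟨ρ, hρ, hP⟩ := h
  have hpos : ∀ g : minGens S, 0 < (g : ℕ) := fun g => Nat.pos_of_ne_zero g.2.2.1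
  have hcard : (minGens S).ncard = Fintype.card (minGens S) := by
    rw [Set.ncard_eq_toFinset_card', Set.toFinset_card]
  have hlow := card_le_of_isPres _ hpos (ρ : Set _) (Finset.finite_toSet ρ) hP
  rw [Set.ncard_coe_finset] at hlow
  have hP' : IsPresentation S (ρ : Set ((minGens S →₀ ℕ) × (minGens S →₀ ℕ))) := hP
  refine ⟨Set.toFinite _, (ρ : Set _), ⟨hP', ?_⟩, Finset.finite_toSet ρ, ?_⟩
  · intro ρ' hρ' hP'
    have hfin : ρ'.Finite := (Finset.finite_toSet ρ).subset hρ'.subset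
    have h1 := card_le_of_isPres _ hpos ρ' hfin hP'
    have h2 := Set.ncard_lt_ncard hρ' (Finset.finite_toSet ρ)
    rw [Set.ncard_coe_finset] at h2
    omega
  · rw [Set.ncard_coe_finset, hcard]
    omega

open H15.NumSem in
/-- **Main theorem.** If `S` is a numerical semigroup with `E(S) = {a, b}`, `a ≠ b`, where neither
`a ≤_S b` nor `b ≤_S a`, then `S` is a complete intersection. -/
theorem result (S : AddSubmonoid ℕ) (hS : IsNumericalSemigroup S) (a b : ℕ) (hab : a ≠ b)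
    (hE : exponentSet S = {a, b}) (h1 : ¬ SLe S a b) (h2 : ¬ SLe S b a) :
    IsCompleteIntersection S := by
  classical
  have hfin := minGens_finite hS
  have : Fintype (minGens S) := hfin.fintype
  have haE : a ∈ exponentSet S := by rw [hE]; simp
  have hbE : b ∈ exponentSet S := by rw [hE]; simp
  have h1S : 1 ∉ S := by
    intro h
    exact haE.2.1 (exponent_top h a (by have := haE.1; omega))
  have he := exponent_spec S
  have hval := exponent_values he h1S
  have haS : a ∈ S := by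
    by_contra hcon
    exact haE.2.1 ((hval a haE.1).1 hcon)
  have hbS : b ∈ S := by
    by_contra hcon
    exact hbE.2.1 ((hval b hbE.1).1 hcon)
  obtain ⟨a', rfl⟩ : ∃ a', a = a' + 1 := ⟨a - 1, by have := haE.1; omega⟩
  obtain ⟨b', rfl⟩ : ∃ b', b = b' + 1 := ⟨b - 1, by have := hbE.1; omega⟩
  have hab' : a' ≠ b' := by omega
  have hform := hser_formula he h1S hS hab' hE
  have hform' := hser_formula he h1S hS (Ne.symm hab') (by rw [Set.pair_comm]; exact hE)
  have hβ := exponent_nonneg haS hbS h1 hS hform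
  have hα := exponent_nonneg hbS haS h2 hS hform'
  obtain ⟨α, hα'⟩ := Int.eq_ofNat_of_zero_le hα
  obtain ⟨β, hβ'⟩ := Int.eq_ofNat_of_zero_le hβ
  set D : Multiset ℕ := Multiset.replicate α (a' + 1) + Multiset.replicate β (b' + 1) with hD
  have hDmem : ∀ j ∈ D, j = a' + 1 ∨ j = b' + 1 := by
    intro j hj
    rw [hD, Multiset.mem_add] at hj
    rcases hj with hj | hj
    · left; exact Multiset.eq_of_mem_replicate hj
    · right; exact Multiset.eq_of_mem_replicate hj
  have hid : SerId (fun g : minGens S => (g : ℕ)) D := by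
    unfold SerId
    rw [gen_minGens, hform, hα', hβ', hD, Multiset.map_add, Multiset.prod_add,
      Multiset.map_replicate, Multiset.map_replicate, Multiset.prod_replicate,
      Multiset.prod_replicate]
    have h3 := geo_prod (fun g : minGens S => (g : ℕ)) (fun g => Nat.pos_of_ne_zero g.2.2.1)
      Finset.univ
    have e1 : (((oneSub b' ^ ((β : ℕ) : ℤ)) : (ℤ⟦X⟧)ˣ) : ℤ⟦X⟧) = (1 - X ^ (b' + 1)) ^ β := by
      rw [zpow_natCast, Units.val_pow_eq_pow_val]; rfl
    have e2 : (((oneSub a' ^ ((α : ℕ) : ℤ)) : (ℤ⟦X⟧)ˣ) : ℤ⟦X⟧) = (1 - X ^ (a' + 1)) ^ α := by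
      rw [zpow_natCast, Units.val_pow_eq_pow_val]; rfl
    rw [e1, e2]
    calc (1 - X ^ (b' + 1) : ℤ⟦X⟧) ^ β * ((1 - X ^ (a' + 1)) ^ α * ∏ g : minGens S, geo (g : ℕ)) *
          ∏ g : minGens S, (1 - X ^ (g : ℕ))
        = (1 - X ^ (a' + 1)) ^ α * (1 - X ^ (b' + 1)) ^ β *
          ((∏ g : minGens S, geo (g : ℕ)) * ∏ g : minGens S, (1 - X ^ (g : ℕ))) := by ring
      _ = (1 - X ^ (a' + 1)) ^ α * (1 - X ^ (b' + 1)) ^ β := by rw [h3, mul_one]
  have hgood : Good (fun g : minGens S => (g : ℕ)) D := by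
    refine ⟨minGens_min, ?_, ?_, ?_, ?_, ⟨a' + 1, b' + 1, hDmem⟩, hid⟩
    · rw [gen_minGens]; exact hS
    · intro j hj
      rw [gen_minGens]
      rcases hDmem j hj with rfl | rfl
      · exact haS
      · exact hbS
    · intro j hj
      rcases hDmem j hj with rfl | rfl <;> omega
    · intro j hj k hk hne
      rw [gen_minGens]
      rintro ⟨t, ht, hkt⟩
      rcases hDmem j hj with rfl | rfl <;> rcases hDmem k hk with rfl | rfl
      · exact hne rfl
      · exact h1 ⟨t, ht, hkt.symm⟩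
      · exact h2 ⟨t, ht, hkt.symm⟩
      · exact hne rfl
  have hne : 0 < Fintype.card (minGens S) := by
    rw [Fintype.card_pos_iff]
    by_contra hcon
    have hS0 : a' + 1 ∈ gen (fun g : minGens S => (g : ℕ)) := by rw [gen_minGens]; exact haS
    obtain ⟨c, hc⟩ := mem_gen.mp hS0
    have : c = 0 := by
      ext g
      exact absurd ⟨g⟩ hcon
    rw [this, map_zero] at hc
    omega
  exact isCompleteIntersection_of_hasPres (main_aux _ (minGens S) _ D le_rfl hgood) hne

end Pool.Agent.Results.MP_a0aa5b_al.TwoIncomparable
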